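import Pool.Agent.Helper68.ES.St3

/-! Project ES, module TWC: the charges of the class `u` at inner rich points. -/

set_option autoImplicit false

open MeasureTheory Set Filter Topology
open scoped ENNReal RealInnerProductSpace

namespace Pool.Agent.Helper40.ES

open Pool.Agent.Helper68.ES
open Pool.Agent.Helper68.EP
open Pool.Agent.Helper20.RG
open Pool.Agent.Helper20.RL (RQ Rich BM Fml Hit)
open Pool.Agent.Helper68.LM (Pl BB Bd Av HL ft fm DQ)

/-- the measure of `F` in the cell of a point is a measurable function of the point -/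
theorem meas_rq (F : Set Pl) (s : ℝ) (a b : ℤ) :
    Measurable (fun z : Pl => volume (F ∩ RQ s a b z)) := by
  have h0 : Measurable (fun z : Pl => z 0) := by fun_prop
  have h1 : Measurable (fun z : Pl => pr s z) := by
    unfold pr
    fun_prop
  have h2 : Measurable (fun z : Pl => (⌊z 0 / (2 : ℝ) ^ a⌋, ⌊pr s z / (2 : ℝ) ^ b⌋)) :=
    (Int.measurable_floor.comp (h0.div_const _)).prodMk
      (Int.measurable_floor.comp (h1.div_const _))
  have h3 : Measurable (fun x : ℤ × ℤ =>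
      volume (F ∩ {z : Pl | ⌊z 0 / (2 : ℝ) ^ a⌋ = x.1 ∧ ⌊pr s z / (2 : ℝ) ^ b⌋ = x.2})) :=
    measurable_of_countable _
  exact h3.comp h2

theorem meas_rich (F : Set Pl) (s : ℝ) (a b : ℤ) (θ : ℝ) :
    MeasurableSet {z : Pl | Rich F s a b θ z} :=
  measurableSet_le measurable_const (meas_rq F s a b)

/-- the inner rich points form a measurable set -/
theorem meas_In (hLAY : StLAY) (H : Set Pl) (κ : Pl → ℤ) (g : ℕ) (D' d₀ κ₀ s : ℝ) (hH : BM H)
    (hK : Kap H D' κ) (hg : 1 ≤ g) (hD : 0 < D') (hd : 0 < d₀) :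
    MeasurableSet (In H (Ns H κ g d₀) κ g κ₀ s) := by
  obtain ⟨⟨_, _, hm⟩, _, _⟩ := hLAY H κ g D' d₀ hH hK hg hD hd
  have hg0 : (0 : ℤ) < g := by exact_mod_cast hg
  have e : In H (Ns H κ g d₀) κ g κ₀ s = ⋃ l : ℤ, ⋃ w : ℤ,
      (({z | z ∈ Ns H κ g d₀ ∧ κ z ≤ (l + 1) * g - 1} \ {z | z ∈ Ns H κ g d₀ ∧ κ z ≤ l * g - 1}) ∩
        {_z : Pl | w ≤ (l + 1) * g}) ∩
        {z : Pl | Rich (Gl H (Ns H κ g d₀) κ g l) s ((l + 3) * g) w κ₀ z} := by
    ext z
    simp only [Set.mem_iUnion, Set.mem_inter_iff, Set.mem_sdiff, Set.mem_ofPred_eq]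
    constructor
    · rintro ⟨hz, w, hw, hr⟩
      refine ⟨κ z / (g : ℤ), w, ⟨⟨⟨hz, ?_⟩, ?_⟩, hw⟩, hr⟩
      · have := Int.lt_ediv_add_one_mul_self (κ z) hg0
        omega
      · rintro ⟨_, h2⟩
        have := Int.ediv_mul_le (κ z) hg0.ne'
        omega
    · rintro ⟨l, w, ⟨⟨⟨hz, h1⟩, h2⟩, hw⟩, hr⟩
      have h3 : l * g ≤ κ z := by
        by_contra hlt
        exact h2 ⟨hz, by omega⟩
      have h4 : κ z / (g : ℤ) = l := by
        rw [Int.ediv_eq_iff_of_pos hg0]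
        constructor
        · exact h3
        · have : (l + 1) * (g : ℤ) = l * g + g := by ring
          omega
      refine ⟨hz, w, ?_, ?_⟩
      · rw [h4]; exact hw
      · unfold Rz
        rw [h4]
        exact hr
  rw [e]
  refine MeasurableSet.iUnion fun l => MeasurableSet.iUnion fun w => ?_
  refine (((hm _).diff (hm _)).inter ?_).inter (meas_rich _ _ _ _ _)
  by_cases hw : w ≤ (l + 1) * (g : ℤ)
  · simp [hw]
  · simp [hw]

/-- the total charge of one direction at a point -/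
theorem one_dir (hSUP : StSUP) (p CH : ℝ) (E : Set Pl) (u q : ℕ) (J : Finset ℕ) (sl : ℕ → ℝ)
    (fl : ℕ → ℕ) (D θ m : ℝ) (ω : ℤ → ℕ → Pl → ℝ≥0∞) (hC : Chg CH E u q J sl fl D θ m ω)
    (hE : BM E) (hq : 1 ≤ q) (hD : 0 < D) (hθ : 0 < θ) (hm : 0 < m) (j : ℕ) (hj : j ∈ J) (z : Pl) :
    ENNReal.ofReal ((2 : ℝ) ^ (-(p * u))) * ∑' k : ℤ, ω k j z ≤
      ENNReal.ofReal ((2 : ℝ) ^ (-(p * u)) * (2 ^ q * (35 / (m * θ)))) := by
  classical
  set ω' : ℤ → ℕ → Pl → ℝ≥0∞ := fun k j' z => if j' = j then ω k j' z else 0 with hω'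
  have hC' : Chg CH E u q {j} sl fl D θ m ω' := by
    constructor
    · intro k j'
      by_cases h : j' = j
      · simp only [hω', h, if_true]; exact hC.meas k j
      · simp only [hω', h, if_false]; exact measurable_const
    · intro k j' z hz
      by_cases h : j' = j
      · have h2 : ω k j' z ≠ 0 := by
          simp only [hω', h, if_true] at hz
          rw [h]; exact hz
        obtain ⟨_, h3, h4⟩ := hC.supp k j' z h2
        exact ⟨by rw [h]; exact Finset.mem_singleton_self j, h3, h4⟩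
      · exfalso
        simp only [hω', h, if_false] at hz
        exact hz rfl
    · intro k j' z z' h1 h2 h3
      by_cases h : j' = j
      · simp only [hω', h, if_true]
        rw [h] at h3
        exact hC.cell k j z z' h1 h2 h3
      · simp only [hω', h, if_false]
    · intro k j' z
      by_cases h : j' = j
      · simp only [hω', h, if_true]; exact hC.le k j z
      · simp only [hω', h, if_false]; exact zero_le
    · intro b y
      refine le_trans (ENNReal.tsum_le_tsum fun k => ?_) (hC.hl b y)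
      by_cases hk : k ≤ b
      · simp only [hk, if_true, Finset.sum_singleton, hω']
        exact Finset.single_le_sum (f := fun j => ∫⁻ z in DQ b y, ω k j z)
          (fun i _ => zero_le) hj
      · simp only [hk, if_false, le_refl]
  have h := (hSUP p CH E u q {j} sl fl D θ m ω' hC' hE hq hD hθ hm).1 z
  unfold cg at h
  simp only [Finset.sum_singleton, hω', if_true, Finset.card_singleton, Nat.cast_one, mul_one] at h
  exact h

theorem hTWC (hEFB : Pool.Agent.Helper68.EP.StEFB) (hSUP : StSUP) (hINR : StINR)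
    (hLAY : StLAY) : Pool.Agent.Helper68.ES.StTWC := by
  clear hEFB
  obtain ⟨C, hC1, hI⟩ := hINR
  refine ⟨C, hC1, ?_⟩
  intro C₀ p A CH E H κ₁ w u q₁ q₂ r J sl fl D θ₁ m₁ θ₂ m₂ al lam M d₀ κ₀ ω hCC hp1 hp2 hN hCls
    hChg hD hE hH hHE hK
  have hr := hN.r1
  obtain ⟨_, _, hθ, _, _, hm⟩ := hN.th1
  obtain ⟨hlam, _, hM, hd, hκ, hκ1, hA, _⟩ := hN.pos
  set D' : ℝ := M * (2 : ℝ) ^ (-(p * w)) with hD'
  have hD'0 : 0 < D' := by positivity
  set g : ℕ := 2 ^ (q₁ - 6 - r) with hg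
  set g' : ℕ := 2 ^ (q₁ - 10 - r) with hg'
  have hg1 : 1 ≤ g := Nat.one_le_two_pow
  have hgg : g = 16 * g' := by
    rw [hg, hg', show q₁ - 6 - r = 4 + (q₁ - 10 - r) by omega, pow_add]
    norm_num
  have hg'2 : 2 ≤ g' := by
    rw [hg', show q₁ - 10 - r = (q₁ - 11 - r) + 1 by omega, pow_succ]
    have : 1 ≤ 2 ^ (q₁ - 11 - r) := Nat.one_le_two_pow
    omega
  have hmeas : ∀ s : ℝ, MeasurableSet (In H (Ns H κ₁ g d₀) κ₁ g κ₀ s) := fun s =>
    meas_In hLAY H κ₁ g D' d₀ κ₀ s hH hK hg1 hD'0 hd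
  refine ⟨fun j => hmeas (sl j), ?_⟩
  -- few inner rich directions
  set nst : ℝ := 1 + (2 : ℝ) ^ u * (A / 2 ^ (q₁ - 10 - r)) ^ (1 / p) with hnst
  have hnst1 : 1 ≤ nst := by
    have : 0 ≤ (2 : ℝ) ^ u * (A / 2 ^ (q₁ - 10 - r)) ^ (1 / p) := by positivity
    linarith
  have hsep : ∀ j ∈ J, ({j' : ℕ | j' ∈ J ∧ |sl j' - sl j| ≤ (2 : ℝ) ^ (-(g' : ℤ))}.ncard : ℝ) ≤
      nst := by
    intro j hj
    have h := hCls.sep j hj g' (by omega)
    have e : ((g' : ℕ) : ℝ) = 2 ^ (q₁ - 10 - r) := by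
      rw [hg']; push_cast; rfl
    rw [e] at h
    exact h
  have hCD : C * D' ≤ κ₀ := by
    have h := hN.kap
    rw [← hD'] at h
    have h2 : C * D' ≤ (4 + C₀) * D' := mul_le_mul_of_nonneg_right (by linarith) hD'0.le
    linarith
  have hI2 := hI H κ₁ g g' D' d₀ κ₀ nst J sl hH hK hg1 hD'0 hd hCD hκ1 hg'2 (by omega)
    hCls.slope hnst1 hsep
  -- the charge
  set c1 : ℝ := (2 : ℝ) ^ (-(p * u)) * (2 ^ q₂ * (35 / (m₂ * θ₂))) with hc1
  have hc10 : 0 ≤ c1 := by positivity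
  have hch : ch p u J ω (fun _ j => In H (Ns H κ₁ g d₀) κ₁ g κ₀ (sl j)) ≤
      ENNReal.ofReal c1 * ∑ j ∈ J, volume (In H (Ns H κ₁ g d₀) κ₁ g κ₀ (sl j)) := by
    unfold ch
    have e1 : ∑' k : ℤ, ∑ j ∈ J, ∫⁻ z in In H (Ns H κ₁ g d₀) κ₁ g κ₀ (sl j), ω k j z =
        ∑ j ∈ J, ∫⁻ z in In H (Ns H κ₁ g d₀) κ₁ g κ₀ (sl j), ∑' k : ℤ, ω k j z := by
      rw [Summable.tsum_finsetSum fun _ _ => ENNReal.summable]
      refine Finset.sum_congr rfl fun j _ => ?_
      rw [lintegral_tsum fun k => (hChg.meas k j).aemeasurable]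
    rw [e1, Finset.mul_sum, Finset.mul_sum]
    refine Finset.sum_le_sum fun j hj => ?_
    rw [← lintegral_const_mul _ (Measurable.tsum fun k => hChg.meas k j)]
    calc ∫⁻ z in In H (Ns H κ₁ g d₀) κ₁ g κ₀ (sl j),
          ENNReal.ofReal ((2 : ℝ) ^ (-(p * u))) * ∑' k : ℤ, ω k j z
        ≤ ∫⁻ _z in In H (Ns H κ₁ g d₀) κ₁ g κ₀ (sl j), ENNReal.ofReal c1 :=
          lintegral_mono fun z => one_dir hSUP p CH E u q₂ J sl fl D θ₂ m₂ ω hChg hE (by omega)
            hD hθ hm j hj z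
      _ = ENNReal.ofReal c1 * volume (In H (Ns H κ₁ g d₀) κ₁ g κ₀ (sl j)) := by
          rw [setLIntegral_const]
  refine hch.trans ?_
  have h3 : ENNReal.ofReal c1 * ∑ j ∈ J, volume (In H (Ns H κ₁ g d₀) κ₁ g κ₀ (sl j)) ≤
      ENNReal.ofReal c1 * (ENNReal.ofReal (C * nst * (1 + D' / κ₀ ^ 2) * (D' / d₀)) *
        volume (Ns H κ₁ g d₀)) := mul_le_mul_right hI2 _
  refine h3.trans ?_
  rw [← mul_assoc, ← ENNReal.ofReal_mul hc10]
  refine mul_le_mul_left (ENNReal.ofReal_le_ofReal ?_) _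
  have h4 := hN.inn
  rw [← hD', ← hnst, ← hc1] at h4
  refine le_trans ?_ h4
  refine mul_le_mul_of_nonneg_left ?_ hc10
  have h5 : 0 ≤ nst := by linarith
  have h6 : 0 ≤ nst * (1 + D' / κ₀ ^ 2) * (D' / d₀) := by positivity
  calc C * nst * (1 + D' / κ₀ ^ 2) * (D' / d₀) = C * (nst * (1 + D' / κ₀ ^ 2) * (D' / d₀)) := by
        ring
    _ ≤ C₀ * (nst * (1 + D' / κ₀ ^ 2) * (D' / d₀)) := mul_le_mul_of_nonneg_right hCC h6
    _ = _ := by ring

end Pool.Agent.Helper40.ES
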